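import Mathlib

/-!
# Project T1 (MP_07c750_an: entropy at least 1/2 + c), block N (PURE): THE FOURTH MOMENT OF `∑ e(t u/(1 - X u))` OVER AN ARBITRARY SET, rows `t1:NXX`, `t1:QDC`, `t1:BDX`

`N ≥ 1`, `U` a finite set of integers `k`, `|k| ≤ 2 N`, `u = k/N`, `s = u/(1 - X u)` (`Nsx N X k`), `E(t, X) = ∑_(k ∈ U) e(t s)`. GOAL (BDX): the number of the cells `[j/N, (j+1)/N]` which contain an `X`, `|X| ≤ 1/8`, with `|E(t, X)| ≥ θ #U` for some `T0 ≤ |t| ≤ 4 N` is at most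
`C θ^(-7) (N/#U)^3 N T0^(-1/2) (1 + log N)^2`.

PROOF. Dyadic blocks `T ≤ t ≤ 2 T` (BDX from NBT). In a block: `E` is Lipschitz (NLP), so a bad `(t_j, X_j)` gives a box `|t - t_j| ≤ θ/120`, `|x - X_j| ≤ θ/(1000 T)` where `|E| ≥ (θ/2) #U`. Near `X0 = m w`, `w = (θ/T)^(1/2)/128`, `E(t, x)` is the linear sum `S(t, η) = ∑ e(t s + η s²)`, `s = u/(1 - X0 u)`, `η = t (x - X0)`,
up to `(θ/4) #U` (NLP). So (NM1, Markov) the number of boxes over a point is at most a constant times `∑_m |S_m|^4`; integrate (NM2). The fourth moment over `|t| ≤ 3 T`, `|η| ≤ H = (θ T)^(1/2)` is at most `C T H` times the number of the quadruples with `|s1 + s2 - s3 - s4| ≤ 1/T`, `|s1² + s2² - s3² - s4²| ≤ 1/H`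
(N4M, NPC: Fejer weights and cells), and there are at most `C (N/T) #U (N²/H) (1 + log N)` of them (QDC).

RULES. Row `XXX`: file `Pool/Agent/<seat>/T1/XXX.lean`, `import Pool.Agent.helper65.T1.SpecN`, `set_option autoImplicit false`, namespace `Pool.Agent.T1`, auxiliary lemmas prefixed `XXX_`, theorem `XXX_proof (h..) : XXX_stmt` (other rows may be used as hypotheses `(h : YYY_stmt)`).
No `convert`, `congr!`, `native_decide`, no double quotes, no `private`, no command starting with a sharp sign.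
-/

set_option autoImplicit false

open MeasureTheory

namespace Pool.Agent.T1

noncomputable section

/-! ## Definitions -/

/-- `e(x) = exp (2 π i x)` -/
def Nex (x : ℝ) : ℂ := Complex.exp (((2 * Real.pi * x : ℝ) : ℂ) * Complex.I)

/-- the point `u / (1 - X u)`, `u = k / N` -/
def Nsx (N : ℕ) (X : ℝ) (k : ℤ) : ℝ := ((k : ℝ) / N) / (1 - X * ((k : ℝ) / N))

/-- `E(t, X) = ∑_(k ∈ U) e(t u / (1 - X u))` -/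
def NE (N : ℕ) (U : Finset ℤ) (t X : ℝ) : ℂ := ∑ k ∈ U, Nex (t * Nsx N X k)

/-- the linear sum `S(t, η) = ∑_(k ∈ U) e(t s + η s²)`, `s = u / (1 - X0 u)` -/
def NS (N : ℕ) (U : Finset ℤ) (X0 t η : ℝ) : ℂ := ∑ k ∈ U, Nex (t * Nsx N X0 k + η * Nsx N X0 k ^ 2)

open Classical in
/-- the quadruples -/
def NQ (N : ℕ) (U : Finset ℤ) (X T H : ℝ) : Finset ((ℤ × ℤ) × (ℤ × ℤ)) :=
  {x ∈ (U ×ˢ U) ×ˢ (U ×ˢ U) | |(Nsx N X x.1.1 + Nsx N X x.1.2) - (Nsx N X x.2.1 + Nsx N X x.2.2)| ≤ 1 / T ∧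
    |(Nsx N X x.1.1 ^ 2 + Nsx N X x.1.2 ^ 2) - (Nsx N X x.2.1 ^ 2 + Nsx N X x.2.2 ^ 2)| ≤ 1 / H}

/-- the width of the intervals for `X` where `E` is linear up to `θ/4` -/
def Nw (θ T : ℝ) : ℝ := Real.sqrt (θ / T) / 128

/-- the centres `m w`, `|m w| ≤ 1/4` -/
def NMs (θ T : ℝ) : Finset ℤ := Finset.Icc (-⌊1 / (4 * Nw θ T)⌋) ⌊1 / (4 * Nw θ T)⌋

/-! ## 1. Pair counting -/

/-- **NFT** (PURE calculus; short-medium). THE FEJER KERNEL. `a = 0`: `κ = A`. `a ≠ 0`: `κ = sin(π a A)² / (π² a² A)`; `κ a² A ≤ 1/π² ≤ 1`, `κ ≤ A` since `|sin x| ≤ |x|`. (Split the interval at `0`; antiderivative of `(1 - t/A) e(a t)` is `(1 - t/A) e(at)/(2 π i a) + e(at)/(A (2 π i a)²)`; `∫_{-A}^0` is the conjugate of `∫_0^A`.) -/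
def NFT_stmt : Prop := ∀ A : ℝ, 0 < A → ∀ a : ℝ, ∃ κ : ℝ, 0 ≤ κ ∧ κ ≤ A ∧ κ * a ^ 2 * A ≤ 1 ∧ ∫ t in (-A)..A, ((1 - |t| / A : ℝ) : ℂ) * Nex (a * t) = (κ : ℂ)

open Classical in
/-- **NPD** (PURE combinatorics; short-medium). CELLS. `n p = #{i ∈ s | (c i, d i) = p}`, `p` in the image of `s`. The left side is `∑_(p, p') n p n p' h(p - p')` (or directly: for `i, j` use `∑_(i,j) h(..) = ∑_i ∑_(p') n p' h(p_i - p')`), `n p n p' ≤ (n p ^ 2 + n p' ^ 2)/2`, and for fixed `p` the sum of `h(p - p')`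
over different `p'` is at most `(∑_(m ∈ ℤ) 1/(1 + m²))² ≤ 25` (`1 + 2 ∑_(m ≥ 1) 1/m² ≤ 1 + 2 · 2`; for a finite set of integers). `∑_p n p ^ 2` is the right side. -/
def NPD_stmt : Prop := ∀ (ι : Type) (s : Finset ι) (c d : ι → ℤ),
  ∑ i ∈ s, ∑ j ∈ s, 1 / ((1 + ((c i : ℝ) - c j) ^ 2) * (1 + ((d i : ℝ) - d j) ^ 2)) ≤ 25 * (({x ∈ s ×ˢ s | c x.1 = c x.2 ∧ d x.1 = d x.2} : Finset (ι × ι)).card : ℝ)

/-- **NPW** (PURE; medium; from NFT). `1 ≤ 2 (1 - |t|/(2T))` for `|t| ≤ T`, and this weight is `≥ 0` for `|t| ≤ 2 T`; so the left side is at most the integral over `|t| ≤ 2 T`, `|η| ≤ 2 H` of `2 (1 - |t|/(2T)) 2 (1 - |η|/(2H)) |∑|²`. Expand `|∑|² = ∑_(i,j) e((a i - a j) t) e((b i - b j) η)` (as a complex number); the integral factors: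
`∑_(i,j) 2 κ 2 κ'` with `κ` from NFT for `A = 2 T`, `a = a i - a j`: `2 κ ≤ 4 T`, `2 κ (T a)² ≤ T`, so `2 κ ≤ 5 T/(1 + (T a)²)`. (Everything is continuous; the sum of the `κ κ'` is real.) -/
def NPW_stmt : Prop := ∀ (ι : Type) (s : Finset ι) (a b : ι → ℝ) (T H : ℝ), 0 < T → 0 < H →
  ∫ t in (-T)..T, ∫ η in (-H)..H, ‖∑ i ∈ s, Nex (a i * t + b i * η)‖ ^ 2 ≤
    25 * T * H * ∑ i ∈ s, ∑ j ∈ s, 1 / ((1 + (T * (a i - a j)) ^ 2) * (1 + (H * (b i - b j)) ^ 2))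

open Classical in
/-- **NPC** (PURE; short; from NPW, NPD). PAIR COUNTING. `c i = ⌊T a i⌋`, `d i = ⌊H b i⌋`. `|T (a i - a j)| ≥ |c i - c j| - 1`, so `1 + (T (a i - a j))² ≥ (1 + (c i - c j)²)/5` (`5 + 5 (m-1)² ≥ 1 + m²` for all integers `m ≥ 1`; trivial for `m = 0`). Equal cells: `|T (a i - a j)| < 1`. `C = 25^3`. -/
def NPC_stmt : Prop := ∃ C : ℝ, 1 ≤ C ∧ ∀ (ι : Type) (s : Finset ι) (a b : ι → ℝ) (T H : ℝ), 0 < T → 0 < H →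
  ∫ t in (-T)..T, ∫ η in (-H)..H, ‖∑ i ∈ s, Nex (a i * t + b i * η)‖ ^ 2 ≤
    C * T * H * (({x ∈ s ×ˢ s | |a x.1 - a x.2| ≤ 1 / T ∧ |b x.1 - b x.2| ≤ 1 / H} : Finset (ι × ι)).card : ℝ)

/-- **N4M** (PURE; short; from NPC). `S² = ∑_((k, k') ∈ U × U) e(t (s + s') + η (s² + s'²))` (`Finset.sum_mul_sum`, `Nex (x + y) = Nex x * Nex y`), `‖S‖^4 = ‖S²‖^2`; NPC with `ι = ℤ × ℤ`. -/
def N4M_stmt : Prop := ∃ C : ℝ, 1 ≤ C ∧ ∀ (N : ℕ) (U : Finset ℤ) (X T H : ℝ), 0 < T → 0 < H →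
  ∫ t in (-T)..T, ∫ η in (-H)..H, ‖NS N U X t η‖ ^ 4 ≤ C * T * H * ((NQ N U X T H).card : ℝ)

/-! ## 2. Quadruples -/

/-- **NSP** (PURE; short). `1 - X u ∈ [1/2, 3/2]` for `|u| ≤ 2`, `|X| ≤ 1/4`. `s - s' = (u - u')/((1 - X u)(1 - X u'))`, so `|s - s'| ≥ (4/9) |u - u'|`. Counting: the integers `k` of the set are pairwise different, so their number is at most `1 + (max - min) ≤ 1 + 3 N ℓ`
(the set lies in `Icc (min) (max)`, `Int.card_Icc`). -/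
def NSP_stmt : Prop := ∀ (N : ℕ) (X : ℝ), 1 ≤ N → |X| ≤ 1 / 4 → (∀ k : ℤ, |k| ≤ 2 * N → |Nsx N X k| ≤ 4) ∧
  (∀ k k' : ℤ, |k| ≤ 2 * N → |k'| ≤ 2 * N → |(k : ℝ) - k'| ≤ 3 * N * |Nsx N X k - Nsx N X k'|) ∧
  ∀ (U : Finset ℤ) (x ℓ : ℝ), (∀ k ∈ U, |k| ≤ 2 * N) → 0 ≤ ℓ → (({k ∈ U | x ≤ Nsx N X k ∧ Nsx N X k ≤ x + ℓ} : Finset ℤ).card : ℝ) ≤ 1 + 3 * N * ℓ

open Classical in
/-- **NQ2** (PURE; medium; from NSP). For fixed `k1, k2`: `P = s1 + s2`, `D0 = |s1 - s2|`. For `(k3, k4)` in the set: `a = s3 + s4`, `|a - P| ≤ 1/T`; `D = |s3 - s4|`: `D² = 2 (s3² + s4²) - a²`, `D0² = 2 (s1² + s2²) - P²`, so `|D² - D0²| ≤ 2/H + (1/T)(|a| + |P|) ≤ 2/H + 16/T ≤ 18/H`. So `|D - D0| ≤ μ`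
for `μ = 5/√H` (`|D - D0|² ≤ |D - D0| (D + D0)`, `√18 ≤ 5`) and, if `k1 ≠ k2`, for `μ = 54 N/(H |k1 - k2|)` (`|D - D0| D0 ≤ 18/H`, `D0 ≥ |k1 - k2|/(3 N)`: NSP). `s3 = (a ± D)/2` is in one of two intervals of length `1/T + μ` (centres `(P ± D0)/2`): at most `2 (1 + 3 N (1/T + μ))` values of `k3` (NSP);
given `k3`, `s4 = a - s3` is in an interval of length `2/T`: at most `1 + 6 N/T` values of `k4`. With `1 ≤ 12 N/T`: the product is at most `2 (15 N/T + 3 N μ)(18 N/T) ≤ 540 (N/T) (N/T + N μ)`. -/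
def NQ2_stmt : Prop := ∀ (N : ℕ) (U : Finset ℤ) (X T H : ℝ) (k1 k2 : ℤ), 1 ≤ N → (∀ k ∈ U, |k| ≤ 2 * N) → |X| ≤ 1 / 4 → k1 ∈ U → k2 ∈ U → 1 ≤ H → H ≤ T → T ≤ 12 * N →
  (({x ∈ U ×ˢ U | |(Nsx N X k1 + Nsx N X k2) - (Nsx N X x.1 + Nsx N X x.2)| ≤ 1 / T ∧ |(Nsx N X k1 ^ 2 + Nsx N X k2 ^ 2) - (Nsx N X x.1 ^ 2 + Nsx N X x.2 ^ 2)| ≤ 1 / H} : Finset (ℤ × ℤ)).card : ℝ) ≤ 540 * (N / T) * (N / T + N * (5 / Real.sqrt H)) ∧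
  (k1 ≠ k2 → (({x ∈ U ×ˢ U | |(Nsx N X k1 + Nsx N X k2) - (Nsx N X x.1 + Nsx N X x.2)| ≤ 1 / T ∧ |(Nsx N X k1 ^ 2 + Nsx N X k2 ^ 2) - (Nsx N X x.1 ^ 2 + Nsx N X x.2 ^ 2)| ≤ 1 / H} : Finset (ℤ × ℤ)).card : ℝ) ≤
    540 * (N / T) * (N / T + N * (54 * N / (H * |(k1 : ℝ) - k2|))))

/-- **QDC** (PURE; medium; from NQ2). `#NQ = ∑_(k1, k2 ∈ U) #(the set of NQ2)` (`Finset.card_eq_sum_card_fiberwise`, or `Finset.card_filter`, `Finset.sum_product`). `k2 = k1`: the first bound, `k2 ≠ k1` the second. `∑_(k2 ≠ k1) 1/|k1 - k2| ≤ 2 (1 + log (4 N))` (`|k1 - k2| ≤ 4 N`; `harmonic_le_one_add_log`). So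
`#NQ ≤ 540 (N/T) #U [#U N/T + 5 N/√H + 108 (N²/H)(1 + log (4N))]`, `#U ≤ 4 N + 1 ≤ 5 N`, `N/T ≤ N/H`, `N/√H ≤ 4 N²/H` (`√H ≤ √(12 N) ≤ 4 N`), `1 + log (4 N) ≤ 3 (1 + log N)`. -/
def QDC_stmt : Prop := ∃ C : ℝ, 1 ≤ C ∧ ∀ (N : ℕ) (U : Finset ℤ) (X T H : ℝ), 1 ≤ N → (∀ k ∈ U, |k| ≤ 2 * N) → |X| ≤ 1 / 4 → 1 ≤ H → H ≤ T → T ≤ 12 * N →
  ((NQ N U X T H).card : ℝ) ≤ C * (N / T) * U.card * (N ^ 2 / H) * (1 + Real.log N)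

/-! ## 3. From bad cells to the fourth moment -/

/-- **NLP** (PURE; short-medium). `|Nex x - Nex y| ≤ 2 π |x - y|`. `|u| ≤ 2`, `1 - X u ∈ [1/2, 3/2]`: `|s| ≤ 4`, `|s_X - s_X'| = u² |X - X'|/((1 - X u)(1 - X' u)) ≤ 16 |X - X'|`. Second part: `ξ = X' - X`, `s = u/(1 - X u)`, `1 - ξ s = (1 - X' u)/(1 - X u) ≥ 1/3`, `u/(1 - X' u) = s/(1 - ξ s) = s + ξ s² + ξ² s³/(1 - ξ s)`, the last term is at most
`192 ξ²`, and `2 π · 192 ≤ 1207`. Third: conjugation. -/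
def NLP_stmt : Prop := ∀ (N : ℕ) (U : Finset ℤ) (X X' : ℝ), 1 ≤ N → (∀ k ∈ U, |k| ≤ 2 * N) → |X| ≤ 1 / 4 → |X'| ≤ 1 / 4 →
  (∀ t t' : ℝ, ‖NE N U t X - NE N U t' X'‖ ≤ U.card * (2 * Real.pi * (4 * |t - t'| + 16 * |t| * |X - X'|))) ∧
  (∀ t : ℝ, ‖NE N U t X' - NS N U X t (t * (X' - X))‖ ≤ 1207 * U.card * |t| * (X' - X) ^ 2) ∧ ∀ t : ℝ, ‖NE N U (-t) X‖ = ‖NE N U t X‖

open Classical in
/-- **NM1** (PURE; medium; from NLP). THE POINTWISE INEQUALITY. If no `j` is in the set the left side is `0`. Otherwise take one: `|x| ≤ 1/8 + 1/1000 ≤ 1/4` (`T ≥ 1`), and by NLP `‖NE t x‖ ≥ θ #U - #U 2 π (4 θ/120 + 16 · 2 T · θ/(1000 T)) ≥ (θ/2) #U`. `w = Nw θ T > 0`; `m` = `x/w` rounded towards `0`: `|x - m w| ≤ w`, `|m w| ≤ |x| ≤ 1/4`, so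
`m ∈ NMs θ T`; by NLP (with `X = m w`, `X' = x`) `‖NS (m w) t (t (x - m w))‖ ≥ (θ/2) #U - 1207 #U (3 T) w² ≥ (θ/4) #U` (`w² = θ/(16384 T)`, `|t| ≤ 2 T + θ/120 ≤ 3 T`). So the sum on the right is `≥ (θ #U)^4/256`. The number of the `j`: `N (x - r) - 1 ≤ j ≤ N (x + r)`, `r = θ/(1000 T)`: at most `2 N r + 2`. -/
def NM1_stmt : Prop := ∀ (N : ℕ) (U : Finset ℤ) (θ T : ℝ) (J : Finset ℤ) (tj xj : ℤ → ℝ), 1 ≤ N → (∀ k ∈ U, |k| ≤ 2 * N) → 0 < θ → θ ≤ 1 → 1 ≤ θ * T → T ≤ 4 * N →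
  (∀ j ∈ J, (j : ℝ) ≤ N * xj j ∧ N * xj j ≤ j + 1 ∧ |xj j| ≤ 1 / 8 ∧ T ≤ tj j ∧ tj j ≤ 2 * T ∧ θ * U.card ≤ ‖NE N U (tj j) (xj j)‖) → ∀ t x : ℝ,
    (θ * U.card) ^ 4 * (({j ∈ J | |x - xj j| ≤ θ / (1000 * T) ∧ |t - tj j| ≤ θ / 120} : Finset ℤ).card : ℝ) ≤
      256 * (2 * N * (θ / (1000 * T)) + 2) * ∑ m ∈ NMs θ T, if |x - m * Nw θ T| ≤ Nw θ T then ‖NS N U (m * Nw θ T) t (t * (x - m * Nw θ T))‖ ^ 4 else 0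

open Classical in
/-- **NM2** (PURE calculus; medium). INTEGRATION of a pointwise inequality over `T/2 ≤ t ≤ 3 T`, `x ∈ ℝ`. Left side: the box of `j` has area `(2 r) (2 ρ)` and lies in the domain. Right side: for fixed `m`, `t`: `∫_(m w - w)^(m w + w) F m t (t (x - m w)) dx = t⁻¹ ∫_(-t w)^(t w) F m t η dη ≤ (2/T) ∫_(-H)^H F m t η dη` (`t w ≤ 3 T w ≤ H`, `F ≥ 0`), then
`∫_(T/2)^(3T) ≤ ∫_(-3T)^(3T)`. (Possibly easiest with `∫⁻` over `ℝ × ℝ`, `lintegral_prod`, and `ofReal` at the end; or for fixed `t` integrate in `x` first.) -/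
def NM2_stmt : Prop := ∀ (J : Finset ℤ) (tj xj : ℤ → ℝ) (r ρ T H w A B : ℝ) (Ms : Finset ℤ) (F : ℤ → ℝ → ℝ → ℝ), 0 < r → 0 < ρ → 0 < T → 0 < w → 3 * T * w ≤ H → 0 ≤ A → 0 ≤ B →
  (∀ m, Continuous fun y : ℝ × ℝ => F m y.1 y.2) → (∀ m t η, 0 ≤ F m t η) → (∀ j ∈ J, T / 2 ≤ tj j - ρ ∧ tj j + ρ ≤ 3 * T) →
  (∀ t x : ℝ, B * (({j ∈ J | |x - xj j| ≤ r ∧ |t - tj j| ≤ ρ} : Finset ℤ).card : ℝ) ≤ A * ∑ m ∈ Ms, if |x - m * w| ≤ w then F m t (t * (x - m * w)) else 0) →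
    B * (J.card * (2 * r) * (2 * ρ)) ≤ A * (2 / T) * ∑ m ∈ Ms, ∫ t in (-(3 * T))..(3 * T), ∫ η in (-H)..H, F m t η

/-- **NBT** (PURE; short-medium; from NM1, NM2, N4M, QDC). ONE BLOCK. `r = θ/(1000 T)`, `ρ = θ/120`, `w = Nw θ T`, `H = √(θ T)`, `A = 256 (2 N r + 2)`, `B = (θ #U)^4`, `F m t η = ‖NS N U (m w) t η‖^4` (continuous). `1 ≤ H ≤ T` (`1 ≤ θ T`, `θ ≤ 1`, `T ≥ 1`), `3 T w = (3/128) H`. `|m w| ≤ 1/4`, `#NMs ≤ 1/w = 128 √T/√θ`.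
N4M and QDC with `3 T ≤ 12 N`: every double integral is at most `C (3 T) H (N/(3T)) #U (N²/H)(1 + log N) = C N #U N² (1 + log N)`. `A ≤ 256 · 9 N/T` (`1 ≤ 4 N/T`). So `(θ #U)^4 #J θ²/(30000 T) ≤ C (N/T)(1/T)(√T/√θ) N³ #U (1 + log N)`, that is `#J θ^(13/2) #U^3 √T ≤ C N^4 (1 + log N)` (if `#U > 0`), and `θ^7 ≤ θ^(13/2)`. -/
def NBT_stmt : Prop := ∃ C : ℝ, 1 ≤ C ∧ ∀ (N : ℕ) (U : Finset ℤ) (θ T : ℝ) (J : Finset ℤ) (tj xj : ℤ → ℝ), 1 ≤ N → (∀ k ∈ U, |k| ≤ 2 * N) → 0 < θ → θ ≤ 1 → 1 ≤ θ * T → T ≤ 4 * N →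
  (∀ j ∈ J, (j : ℝ) ≤ N * xj j ∧ N * xj j ≤ j + 1 ∧ |xj j| ≤ 1 / 8 ∧ T ≤ tj j ∧ tj j ≤ 2 * T ∧ θ * U.card ≤ ‖NE N U (tj j) (xj j)‖) →
    (J.card : ℝ) * (U.card : ℝ) ^ 3 * θ ^ 7 * Real.sqrt T ≤ C * N ^ 4 * (1 + Real.log N)

open Classical in
/-- **BDX** (PURE; short-medium; from NBT, NLP (third part)). If `T0 > 4 N` no cell is bad. Otherwise `T_i = 2^i T0`, `i ≤ I = ⌊log (4 N)/log 2⌋`: every `|t| ∈ [T0, 4N]` is in some `[T_i, 2 T_i]` with `T_i ≤ 4 N`. `J_i` = the cells with such `t` (`tj = |t|`, `‖NE (-t) X‖ = ‖NE t X‖`); NBT for every `i`, `√T_i ≥ √T0`; `I + 1 ≤ 4 (1 + log N)`. -/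
def BDX_stmt : Prop := ∃ C : ℝ, 1 ≤ C ∧ ∀ (N : ℕ) (U : Finset ℤ) (θ T0 : ℝ), 1 ≤ N → (∀ k ∈ U, |k| ≤ 2 * N) → 0 < θ → θ ≤ 1 → 1 ≤ θ * T0 →
  (({j ∈ Finset.Icc (-(N : ℤ)) N | ∃ X t : ℝ, (j : ℝ) ≤ N * X ∧ N * X ≤ j + 1 ∧ |X| ≤ 1 / 8 ∧ T0 ≤ |t| ∧ |t| ≤ 4 * N ∧ θ * U.card ≤ ‖NE N U t X‖} : Finset ℤ).card : ℝ) *
    (U.card : ℝ) ^ 3 * θ ^ 7 * Real.sqrt T0 ≤ C * N ^ 4 * (1 + Real.log N) ^ 2

end

end Pool.Agent.T1
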