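import Pool.Agent.helper65.T1.SpecN

set_option autoImplicit false

open Finset

namespace Pool.Agent.T1

lemma NPDr_icc (M : ℕ) : ∑ k ∈ Finset.Icc (-(M : ℤ)) M, 1 / (1 + (k : ℝ) ^ 2) ≤ 5 - 4 / ((M : ℝ) + 1) := by
  induction M with
  | zero => norm_num
  | succ M ih =>
    have h1 : Finset.Icc (-((M + 1 : ℕ) : ℤ)) ((M + 1 : ℕ) : ℤ) =
        insert (-((M + 1 : ℕ) : ℤ)) (insert (((M + 1 : ℕ) : ℤ)) (Finset.Icc (-(M : ℤ)) M)) := by
      ext k
      simp only [Finset.mem_Icc, Finset.mem_insert]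
      push_cast
      omega
    rw [h1, Finset.sum_insert, Finset.sum_insert]
    · push_cast
      have h2 : (1 : ℝ) / (1 + (-((M : ℝ) + 1)) ^ 2) + (1 / (1 + ((M : ℝ) + 1) ^ 2)) ≤ 4 / ((M : ℝ) + 1) - 4 / ((M : ℝ) + 1 + 1) := by
        have hM : (0 : ℝ) ≤ M := Nat.cast_nonneg M
        have e1 : (1 : ℝ) / (1 + (-((M : ℝ) + 1)) ^ 2) + (1 / (1 + ((M : ℝ) + 1) ^ 2)) = 2 / (1 + ((M : ℝ) + 1) ^ 2) := by
          rw [neg_sq]; ring
        have e2 : 4 / ((M : ℝ) + 1) - 4 / ((M : ℝ) + 1 + 1) = 4 / (((M : ℝ) + 1) * ((M : ℝ) + 1 + 1)) := by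
          field_simp
          ring
        rw [e1, e2, div_le_div_iff₀ (by positivity) (by positivity)]
        nlinarith
      linarith
    · simp only [Finset.mem_Icc]
      push_cast
      omega
    · simp only [Finset.mem_insert, Finset.mem_Icc]
      push_cast
      omega

lemma NPDr_one (A : Finset ℤ) (a : ℤ) : ∑ m ∈ A, 1 / (1 + ((a : ℝ) - m) ^ 2) ≤ 5 := by
  obtain ⟨M, hM⟩ : ∃ M : ℕ, A.image (fun m => a - m) ⊆ Finset.Icc (-(M : ℤ)) M := by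
    refine ⟨∑ m ∈ A, (a - m).natAbs, fun k hk => ?_⟩
    obtain ⟨m, hm, rfl⟩ := Finset.mem_image.mp hk
    have h1 : (a - m).natAbs ≤ ∑ m ∈ A, (a - m).natAbs :=
      Finset.single_le_sum (f := fun m => (a - m).natAbs) (fun _ _ => Nat.zero_le _) hm
    rw [Finset.mem_Icc]
    omega
  have h2 : ∑ m ∈ A, 1 / (1 + ((a : ℝ) - m) ^ 2) = ∑ k ∈ A.image (fun m => a - m), 1 / (1 + (k : ℝ) ^ 2) := by
    rw [Finset.sum_image]
    · refine Finset.sum_congr rfl fun m _ => ?_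
      push_cast
      rfl
    · intro x _ y _ hxy
      simp only at hxy
      omega
  rw [h2]
  refine (Finset.sum_le_sum_of_subset_of_nonneg hM fun k _ _ => by positivity).trans ?_
  refine (NPDr_icc M).trans ?_
  have : (0 : ℝ) ≤ 4 / ((M : ℝ) + 1) := by positivity
  linarith

/-- the weight -/
noncomputable def NPDr_h (p q : ℤ × ℤ) : ℝ := 1 / ((1 + ((p.1 : ℝ) - q.1) ^ 2) * (1 + ((p.2 : ℝ) - q.2) ^ 2))

lemma NPDr_h_nonneg (p q : ℤ × ℤ) : 0 ≤ NPDr_h p q := by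
  unfold NPDr_h
  positivity

lemma NPDr_h_symm (p q : ℤ × ℤ) : NPDr_h p q = NPDr_h q p := by
  unfold NPDr_h
  rw [show ((p.1 : ℝ) - q.1) ^ 2 = ((q.1 : ℝ) - p.1) ^ 2 by ring, show ((p.2 : ℝ) - q.2) ^ 2 = ((q.2 : ℝ) - p.2) ^ 2 by ring]

lemma NPDr_two (P : Finset (ℤ × ℤ)) (p : ℤ × ℤ) : ∑ q ∈ P, NPDr_h p q ≤ 25 := by
  have h1 : P ⊆ P.image Prod.fst ×ˢ P.image Prod.snd := by
    intro q hq
    rw [Finset.mem_product]
    exact ⟨Finset.mem_image_of_mem _ hq, Finset.mem_image_of_mem _ hq⟩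
  refine (Finset.sum_le_sum_of_subset_of_nonneg h1 fun q _ _ => NPDr_h_nonneg p q).trans ?_
  rw [Finset.sum_product]
  have h2 : ∀ x ∈ P.image Prod.fst, ∑ y ∈ P.image Prod.snd, NPDr_h p (x, y) =
      (1 / (1 + ((p.1 : ℝ) - x) ^ 2)) * ∑ y ∈ P.image Prod.snd, 1 / (1 + ((p.2 : ℝ) - y) ^ 2) := by
    intro x _
    rw [Finset.mul_sum]
    refine Finset.sum_congr rfl fun y _ => ?_
    unfold NPDr_h
    rw [one_div_mul_one_div]
  rw [Finset.sum_congr rfl h2, ← Finset.sum_mul]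
  have h3 := NPDr_one (P.image Prod.fst) p.1
  have h4 := NPDr_one (P.image Prod.snd) p.2
  have h5 : 0 ≤ ∑ y ∈ P.image Prod.snd, 1 / (1 + ((p.2 : ℝ) - y) ^ 2) := Finset.sum_nonneg fun y _ => by positivity
  calc _ ≤ 5 * 5 := mul_le_mul h3 h4 h5 (by norm_num)
    _ = 25 := by norm_num

theorem NPDr_proof : NPD_stmt := by
  classical
  intro ι s c d
  set f : ι → ℤ × ℤ := fun i => (c i, d i) with hf
  set P := s.image f with hP
  set n : ℤ × ℤ → ℕ := fun p => #{a ∈ s | f a = p} with hn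
  have hL : ∑ i ∈ s, ∑ j ∈ s, 1 / ((1 + ((c i : ℝ) - c j) ^ 2) * (1 + ((d i : ℝ) - d j) ^ 2)) =
      ∑ p ∈ P, ∑ q ∈ P, (n p : ℝ) * n q * NPDr_h p q := by
    have h1 : ∀ i ∈ s, ∑ j ∈ s, 1 / ((1 + ((c i : ℝ) - c j) ^ 2) * (1 + ((d i : ℝ) - d j) ^ 2)) =
        (fun p => ∑ q ∈ P, (n q : ℝ) * NPDr_h p q) (f i) := by
      intro i _
      have := Finset.sum_comp (s := s) (fun q => NPDr_h (f i) q) f
      simp only [nsmul_eq_mul] at this
      exact this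
    rw [Finset.sum_congr rfl h1, Finset.sum_comp (s := s) (fun p => ∑ q ∈ P, (n q : ℝ) * NPDr_h p q) f]
    refine Finset.sum_congr rfl fun p _ => ?_
    rw [nsmul_eq_mul, Finset.mul_sum]
    refine Finset.sum_congr rfl fun q _ => ?_
    ring
  have hR : (({x ∈ s ×ˢ s | c x.1 = c x.2 ∧ d x.1 = d x.2} : Finset (ι × ι)).card : ℝ) = ∑ p ∈ P, (n p : ℝ) ^ 2 := by
    have h1 : ({x ∈ s ×ˢ s | c x.1 = c x.2 ∧ d x.1 = d x.2} : Finset (ι × ι)).card = ∑ i ∈ s, n (f i) := by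
      rw [Finset.card_filter, Finset.sum_product]
      refine Finset.sum_congr rfl fun i _ => ?_
      simp only [hn]
      rw [Finset.card_filter]
      refine Finset.sum_congr rfl fun j _ => ?_
      simp only [hf, Prod.mk.injEq]
      by_cases h : c i = c j ∧ d i = d j
      · rw [if_pos h, if_pos ⟨h.1.symm, h.2.symm⟩]
      · rw [if_neg h, if_neg fun h' => h ⟨h'.1.symm, h'.2.symm⟩]
    rw [h1, Finset.sum_comp (s := s) n f]
    push_cast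
    refine Finset.sum_congr rfl fun p _ => ?_
    simp only [hn, smul_eq_mul]
    push_cast
    ring
  rw [hL]
  have hR' : 25 * (({x ∈ s ×ˢ s | c x.1 = c x.2 ∧ d x.1 = d x.2} : Finset (ι × ι)).card : ℝ) = 25 * ∑ p ∈ P, (n p : ℝ) ^ 2 := by
    rw [hR]
  refine le_trans ?_ (le_of_eq hR'.symm)
  have h1 : ∑ p ∈ P, ∑ q ∈ P, (n p : ℝ) * n q * NPDr_h p q ≤
      ∑ p ∈ P, ∑ q ∈ P, ((n p : ℝ) ^ 2 / 2 * NPDr_h p q + (n q : ℝ) ^ 2 / 2 * NPDr_h q p) := by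
    refine Finset.sum_le_sum fun p _ => Finset.sum_le_sum fun q _ => ?_
    rw [NPDr_h_symm q p]
    have := NPDr_h_nonneg p q
    nlinarith [mul_nonneg (sq_nonneg ((n p : ℝ) - n q)) this]
  have h2 : ∑ p ∈ P, ∑ q ∈ P, ((n p : ℝ) ^ 2 / 2 * NPDr_h p q + (n q : ℝ) ^ 2 / 2 * NPDr_h q p) =
      ∑ p ∈ P, (n p : ℝ) ^ 2 * ∑ q ∈ P, NPDr_h p q := by
    simp only [Finset.sum_add_distrib]
    rw [Finset.sum_comm (f := fun p q => (n q : ℝ) ^ 2 / 2 * NPDr_h q p)]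
    rw [← Finset.sum_add_distrib]
    refine Finset.sum_congr rfl fun p _ => ?_
    rw [← Finset.sum_add_distrib, Finset.mul_sum]
    refine Finset.sum_congr rfl fun q _ => ?_
    ring
  rw [h2] at h1
  refine h1.trans ?_
  rw [Finset.mul_sum]
  refine Finset.sum_le_sum fun p _ => ?_
  have := NPDr_two P p
  nlinarith [sq_nonneg (n p : ℝ)]

end Pool.Agent.T1
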