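import Pool.Agent.helper8.T1.NFT
import Pool.Agent.helper65.T1.NPDr
import Pool.Agent.helper48.T1.NPW
import Pool.Agent.helper27.T1.NPC
import Pool.Agent.helper33.T1.N4M
import Pool.Agent.helper72.T1.NSP
import Pool.Agent.helper23.T1.NQ2
import Pool.Agent.helper3.T1.QDC
import Pool.Agent.helper51.T1.NLP
import Pool.Agent.helper20.T1.NM1
import Pool.Agent.helper83.T1.NM2
import Pool.Agent.helper78.T1.NBT
import Pool.Agent.helper89.T1.BDX

/-!
# Project T1 (MP_07c750_an), block N: assembly
-/

set_option autoImplicit false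

namespace Pool.Agent.T1

theorem AllN_BDX : BDX_stmt :=
  BDX_proof (NBT_proof (NM1_proof NLP_proof) NM2_proof (N4M_proof (NPC_proof (NPW_proof NFT_proof) NPDr_proof)) (QDC_proof (NQ2_proof NSP_proof))) NLP_proof

end Pool.Agent.T1
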